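import Pool.Agent.H61.CM4.TargetsB

/-!
# CM4, part B1: the completed Epstein zeta function (EZA)
-/

set_option autoImplicit false

namespace Pool.Agent.H36.CM4B

open MeasureTheory Set Filter NumberField NumberField.InfinitePlace NumberField.Units
  NumberField.Units.dirichletUnitTheorem
open Pool.Agent.H65.CM4 Pool.Agent.H25.HK Pool.Agent.H61.CM4
open scoped Real

theorem tsum_if {α β : Type} [AddCommMonoid β] [TopologicalSpace β] (p : α → Prop)
    [DecidablePred p] (f : α → β) :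
    ∑' u, (if p u then f u else 0) = ∑' i : {u // p u}, f i := by
  have h := tsum_subtype {u : α | p u} f
  have h2 : ({u : α | p u} : Set α).indicator f = fun u => if p u then f u else 0 := by
    funext u
    by_cases hu : p u
    · rw [if_pos hu, Set.indicator_of_mem (show u ∈ {u : α | p u} from hu)]
    · rw [if_neg hu, Set.indicator_of_notMem (show u ∉ {u : α | p u} from hu)]
  rw [h2] at h
  exact h.symm

theorem summable_if {α : Type} (p : α → Prop)
    [DecidablePred p] (f : α → ℝ) (h : Summable (fun u => if p u then f u else 0)) :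
    Summable (fun i : {u // p u} => f i) := by
  have h2 : ({u : α | p u} : Set α).indicator f = fun u => if p u then f u else 0 := by
    funext u
    by_cases hu : p u
    · rw [if_pos hu, Set.indicator_of_mem (show u ∈ {u : α | p u} from hu)]
    · rw [if_neg hu, Set.indicator_of_notMem (show u ∉ {u : α | p u} from hu)]
  rw [← h2] at h
  exact summable_subtype_iff_indicator.mpr h

theorem qc_real (x y a b : ℝ) : qc (x : ℂ) (y : ℂ) a b = ((qr x y a b : ℝ) : ℂ) := by
  simp only [qc, qr]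
  push_cast
  ring

theorem qn_real {k : Type} [Field k] [NumberField k] [IsTotallyReal k] (x y : Pl k → ℝ)
    (u : V2 k) :
    qn (fun v => (x v : ℂ)) (fun v => (y v : ℂ)) u = ((qp x y u : ℝ) : ℂ) := by
  simp only [qn, qp, qc_real]
  push_cast
  rfl

open scoped Classical in
/-- the sum of the kernels over the representatives in a lattice -/
theorem sum_kernels (hSKC : T_SKC) {k : Type} [Field k] [NumberField k] [IsTotallyReal k]
    (M : La k) (x y : Pl k → ℝ) (c : ℝ) (hc : 0 < c) (s : ℂ) (h3 : -3 ≤ s.re) (h2 : s.re < 2)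
    (hpos : ∀ u : V2 k, u ≠ 0 → 0 < qp x y u)
    (hsum : Summable (fun u : V2 k => if u ∈ M ∧ u ∈ Fo k then (qp x y u) ^ (-(2 : ℝ)) else 0)) :
    ∑' u : V2 k, (if u ∈ M ∧ u ∈ Fo k then Kc (dg k) s ((c * qp x y u : ℝ) : ℂ) else 0) =
      ((1 / (2 * π) : ℝ) : ℂ) * ∫ t : ℝ, (gG (2 + t * Complex.I) ^ dg k *
        Zd M x y c (2 + t * Complex.I)) *
          (Complex.exp ((2 + t * Complex.I - s) ^ 2) / (2 + t * Complex.I - s)) := by
  have h1 := hSKC (dg k) s {u : V2 k // u ∈ M ∧ u ∈ Fo k} (fun i => c * qp x y i) h3 h2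
    (fun i => mul_pos hc (hpos _ i.2.2.1)) (by
      have h := (summable_if (fun u : V2 k => u ∈ M ∧ u ∈ Fo k)
        (fun u => (qp x y u) ^ (-(2 : ℝ))) hsum).mul_left (c ^ (-2 : ℝ))
      refine h.congr fun i => ?_
      rw [Real.mul_rpow hc.le (hpos _ i.2.2.1).le])
  have h4 := h1.2
  rw [tsum_if (fun u : V2 k => u ∈ M ∧ u ∈ Fo k)
    (fun u => Kc (dg k) s ((c * qp x y u : ℝ) : ℂ)), h4]
  congr 1
  refine integral_congr_ae (Filter.Eventually.of_forall fun t => ?_)
  simp only [Zd]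
  rw [tsum_if (fun u : V2 k => u ∈ M ∧ u ∈ Fo k)
    (fun u => ((c * qp x y u : ℝ) : ℂ) ^ (-(2 + t * Complex.I)))]

open scoped Classical in
theorem pf_EZA (hIXD : T_IXD) (hME2 : T_ME2) (hPHI : T_PHI) (hSKC : T_SKC) (hSHI : T_SHI) :
    T_EZA := by
  intro k _ _ _ M x y hix hy
  obtain ⟨hdk, -, -, -, hdu, -⟩ := hIXD k
  have hixd := hdu M hix
  have hpos := (hME2 k M x y 2 hix hy (by norm_num)).1
  have hsum : ∀ N : La k, ix N ≠ 0 → ∀ σ : ℝ, 1 < σ →
      Summable (fun u : V2 k => if u ∈ N ∧ u ∈ Fo k then (qp x y u) ^ (-σ) else 0) := by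
    intro N hN σ hσ
    have h := (hME2 k N x y (σ : ℂ) hN hy (by simpa using hσ)).2.1
    simpa only [Complex.ofReal_re] using h
  obtain ⟨Φ, hΦd, hΦ1, hΦ2, hΦb⟩ := hPHI k M x y hix hy
  refine ⟨hpos, qn_real x y, hsum M hix, Φ, hΦd, hΦb, ?_, ?_⟩
  · intro s hs1 hs2
    have hm : (0 : ℝ) < (ix M : ℝ) := by exact_mod_cast Nat.pos_of_ne_zero hix
    have hD : (0 : ℝ) < (Dm M : ℝ) := by
      exact_mod_cast Nat.mul_pos hdk (Nat.pos_of_ne_zero hix)
    have e1 := sum_kernels hSKC M x y (ix M : ℝ)⁻¹ (inv_pos.mpr hm) s (by linarith) hs2 hpos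
      (hsum M hix 2 (by norm_num))
    have e2 := sum_kernels hSKC (du M) x y ((ix M : ℝ) / (Dm M : ℝ) ^ (2 * dg k))
      (div_pos hm (pow_pos hD _)) (1 - s) (by simp; linarith) (by simp; linarith) hpos
      (hsum (du M) hixd 2 (by norm_num))
    have hre : ∀ t : ℝ, (2 + t * Complex.I : ℂ).re = 2 := by intro t; simp
    have e3 : ∀ t : ℝ, gG (2 + t * Complex.I) ^ dg k * Zd M x y (ix M : ℝ)⁻¹ (2 + t * Complex.I)
        = Φ (2 + t * Complex.I) := by
      intro t
      exact (hΦ1 _ (by rw [hre]; norm_num)).symm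
    have e4 : ∀ t : ℝ, ((1 / dk k : ℝ) : ℂ) * (gG (2 + t * Complex.I) ^ dg k *
        Zd (du M) x y ((ix M : ℝ) / (Dm M : ℝ) ^ (2 * dg k)) (2 + t * Complex.I))
        = Φ (1 - (2 + t * Complex.I)) := by
      intro t
      exact (hΦ2 _ (by rw [hre]; norm_num)).symm
    have e5 := hSHI Φ s hΦd hΦb hs1 hs2
    rw [← e5]
    unfold Ez Ec
    congr 1
    · have f1 : (fun u : V2 k => if u ∈ M ∧ u ∈ Fo k then Kc (dg k) s
          (qn (fun v => (x v : ℂ)) (fun v => (y v : ℂ)) u / ix M) else 0)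
          = fun u : V2 k => if u ∈ M ∧ u ∈ Fo k then
            Kc (dg k) s (((ix M : ℝ)⁻¹ * qp x y u : ℝ) : ℂ) else 0 := by
        funext u
        have : qn (fun v => (x v : ℂ)) (fun v => (y v : ℂ)) u / ix M
            = (((ix M : ℝ)⁻¹ * qp x y u : ℝ) : ℂ) := by
          rw [qn_real]; push_cast; ring
        rw [this]
      rw [f1, e1]
      congr 1
      refine integral_congr_ae (Filter.Eventually.of_forall fun t => ?_)
      simp only [e3]
    · have f1 : (fun u : V2 k => if u ∈ du M ∧ u ∈ Fo k then Kc (dg k) (1 - s)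
          ((ix M : ℂ) * qn (fun v => (x v : ℂ)) (fun v => (y v : ℂ)) u /
            ((dk k * ix M : ℕ) : ℂ) ^ (2 * dg k)) else 0)
          = fun u : V2 k => if u ∈ du M ∧ u ∈ Fo k then
            Kc (dg k) (1 - s) (((ix M : ℝ) / (Dm M : ℝ) ^ (2 * dg k) * qp x y u : ℝ) : ℂ)
              else 0 := by
        funext u
        have : (ix M : ℂ) * qn (fun v => (x v : ℂ)) (fun v => (y v : ℂ)) u /
            ((dk k * ix M : ℕ) : ℂ) ^ (2 * dg k)
            = (((ix M : ℝ) / (Dm M : ℝ) ^ (2 * dg k) * qp x y u : ℝ) : ℂ) := by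
          rw [qn_real, Dm]; push_cast; ring
        rw [this]
      rw [f1, e2, mul_left_comm, ← integral_const_mul]
      congr 1
      refine integral_congr_ae (Filter.Eventually.of_forall fun t => ?_)
      simp only [← e4]
      ring
  · intro s hs
    rw [hΦ1 s hs]
    congr 1
    unfold Zd
    refine tsum_congr fun u => ?_
    have : qn (fun v => (x v : ℂ)) (fun v => (y v : ℂ)) u / ix M
        = (((ix M : ℝ)⁻¹ * qp x y u : ℝ) : ℂ) := by
      rw [qn_real]; push_cast; ring
    rw [this]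

end Pool.Agent.H36.CM4B
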